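import Pool.Agent.Z15P.Z15.J.SA2
import Pool.Agent.Z15P.T2h99.J.StmH

/-!
The induction step.
-/

set_option autoImplicit false
set_option linter.all false

open FF FF.PP MvPolynomial Pool.Agent.Z15P.Z15.H Pool.Agent.Z15P.Z15.J.Stm Pool.Agent.Z15P.T2h99.J

namespace Pool.Agent.Z15P.Z15.J

/-- identities on lines descend to subfields -/
theorem line_descend {k K1 κ' κ : Type} [Field k] [Field K1] [Field κ'] [Algebra k K1]
    [Algebra K1 κ'] [Algebra k κ'] [IsScalarTower k K1 κ'] (f : MvPolynomial κ k) (c : k) (d : ℕ)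
    (z x : κ → K1) (h : ∀ (A : Type) [CommRing A] [Algebra k A] [Algebra κ' A]
      [IsScalarTower k κ' A] (α β : A), aeval (fun i => α * algebraMap κ' A (algebraMap K1 κ' (z i)) +
        β * algebraMap κ' A (algebraMap K1 κ' (x i))) f = algebraMap k A c * β ^ d)
    (A : Type) [CommRing A] [Algebra k A] [Algebra K1 A] [IsScalarTower k K1 A] (α β : A) :
    aeval (fun i => α * algebraMap K1 A (z i) + β * algebraMap K1 A (x i)) f =
      algebraMap k A c * β ^ d := by
  have h1 : aeval (fun i => (X 0 : MvPolynomial (Fin 2) K1) * C (z i) + X 1 * C (x i)) f =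
      algebraMap k (MvPolynomial (Fin 2) K1) c * X 1 ^ d := by
    let φ : MvPolynomial (Fin 2) K1 →ₐ[k] MvPolynomial (Fin 2) κ' :=
      MvPolynomial.mapAlgHom (IsScalarTower.toAlgHom k K1 κ')
    have hφ : Function.Injective φ := by
      change Function.Injective (MvPolynomial.map (algebraMap K1 κ'))
      exact MvPolynomial.map_injective _ (algebraMap K1 κ').injective
    apply hφ
    have h2 := h (MvPolynomial (Fin 2) κ') (X 0) (X 1)
    have h3 : ∀ g : κ → MvPolynomial (Fin 2) K1, φ (aeval g f) = aeval (fun i => φ (g i)) f := by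
      intro g
      rw [← AlgHom.comp_apply, MvPolynomial.comp_aeval]
    rw [h3, map_mul, AlgHom.commutes, map_pow]
    have hX : ∀ n : Fin 2, φ (X n) = X n := fun n => by
      change MvPolynomial.map (algebraMap K1 κ') (X n) = X n
      exact MvPolynomial.map_X _ _
    have hCC : ∀ a : K1, φ (C a) = algebraMap κ' (MvPolynomial (Fin 2) κ') (algebraMap K1 κ' a) :=
      fun a => by
        change MvPolynomial.map (algebraMap K1 κ') (C a) = C (algebraMap K1 κ' a)
        exact MvPolynomial.map_C _ _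
    simp only [map_add, map_mul, hX, hCC]
    exact h2
  let ψ : MvPolynomial (Fin 2) K1 →ₐ[k] A :=
    (MvPolynomial.aeval ![α, β] : MvPolynomial (Fin 2) K1 →ₐ[K1] A).restrictScalars k
  have h3 : ∀ g : κ → MvPolynomial (Fin 2) K1, ψ (aeval g f) = aeval (fun i => ψ (g i)) f := by
    intro g
    rw [← AlgHom.comp_apply, MvPolynomial.comp_aeval]
  have h4 := congrArg ψ h1
  rw [h3, map_mul, AlgHom.commutes, map_pow] at h4
  have hX0 : ψ (X 0) = α := by
    change MvPolynomial.aeval ![α, β] (X 0) = α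
    simp
  have hX1 : ψ (X 1) = β := by
    change MvPolynomial.aeval ![α, β] (X 1) = β
    simp
  have hCC : ∀ a : K1, ψ (C a) = algebraMap K1 A a := fun a => by
    change MvPolynomial.aeval ![α, β] (C a) = _
    simp
  simp only [map_add, map_mul, hX0, hX1, hCC] at h4
  exact h4

theorem jv_add_smul {ι κ ν A : Type} [CommRing A] (e : ι ≃ κ ⊕ ν) (z : κ → A) (y : ν → A) (i : ι) :
    jv e z y i = jv e z 0 i + jv e 0 y i := by
  unfold jv
  cases e i <;> simp

theorem trdeg_split {K K1 κ' : Type} [Field K] [Field K1] [Field κ'] [Algebra K K1] [Algebra K1 κ']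
    [Algebra K κ'] [IsScalarTower K K1 κ'] {l δ : ℕ} (h : Algebra.trdeg K κ' + 1 = l)
    (hδ : Algebra.trdeg K K1 = δ) : ∃ q : ℕ, l = q + δ + 1 ∧ Algebra.trdeg K1 κ' = q := by
  have h1 := trdeg_add_eq K K1 (A := κ')
  rw [hδ] at h1
  have h2 : Algebra.trdeg K1 κ' < Cardinal.aleph0 := by
    refine lt_of_le_of_lt ?_ (Cardinal.natCast_lt_aleph0 (n := l))
    rw [← h, ← h1]
    exact le_trans (self_le_add_left _ _) (self_le_add_right _ _)
  obtain ⟨q, hq⟩ := Cardinal.lt_aleph0.1 h2
  refine ⟨q, ?_, hq⟩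
  rw [← h1, hq] at h
  have h3 : δ + q + 1 = l := by exact_mod_cast h
  omega


theorem li_descend {K1 κ' κ : Type} [Field K1] [Field κ'] [Algebra K1 κ'] {z x : κ → K1}
    (h : LinearIndependent κ' ![fun i => algebraMap K1 κ' (z i), fun i => algebraMap K1 κ' (x i)]) :
    LinearIndependent K1 ![z, x] := by
  rw [LinearIndependent.pair_iff] at h ⊢
  intro a b hab
  have h1 := h (algebraMap K1 κ' a) (algebraMap K1 κ' b) (by
    funext i
    have h2 := congrArg (algebraMap K1 κ') (congrFun hab i)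
    simpa [Algebra.smul_def] using h2)
  simpa using h1

section

variable {k : Type} [Field k] [IsAlgClosed k] [Infinite k] {ι κ ν ιm : Type} [Fintype ι] [Fintype κ]
  [Fintype ν] [Fintype ιm] {d : ℕ} {e : ι ≃ κ ⊕ ν} {F : MvPolynomial ι k} {f : MvPolynomial κ k}
  {G : MvPolynomial ν k} {s : ℕ} {fl : ℕ → ι → k} {flY : ℕ → ν → k} {flm : ℕ → ιm → k}
  {θ : ιm → ι} {Fm : MvPolynomial ιm k}

omit [IsAlgClosed k] [Infinite k] [Fintype ι] [Fintype ιm] in
theorem hom_cone (hF : F.IsHomogeneous d) (hθ : Function.Injective θ) {p : ι → k}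
    (hcone : ∀ (A : Type) [CommRing A] [Algebra k A] (P : ι → A) (α : A),
      (∀ j ∉ Set.range θ, P j = 0) →
        aeval (fun i => α * algebraMap k A (p i) + P i) F = aeval (fun j => P (θ j)) Fm) :
    Fm.IsHomogeneous d := by
  classical
  have h1 := hcone (MvPolynomial ιm k) (Function.extend θ X 0) 0 (by
    intro j hj
    rw [Function.extend_apply' _ _ _ (by simpa using hj)]
    rfl)
  have h2 : (fun j => Function.extend θ (X : ιm → MvPolynomial ιm k) 0 (θ j)) = X := by
    funext j
    rw [hθ.extend_apply]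
  have h3 : (fun i => (0 : MvPolynomial ιm k) * algebraMap k (MvPolynomial ιm k) (p i) +
      Function.extend θ (X : ιm → MvPolynomial ιm k) 0 i) = Function.extend θ X 0 := by
    funext i
    rw [zero_mul, zero_add]
  rw [h2, h3, aeval_X_left_apply] at h1
  rw [← h1]
  have h4 := hF.aeval (n := 1) (Function.extend θ (X : ιm → MvPolynomial ιm k) 0) (by
    intro i
    by_cases hi : ∃ j, θ j = i
    · obtain ⟨j, rfl⟩ := hi
      rw [hθ.extend_apply]
      exact isHomogeneous_X _ _
    · rw [Function.extend_apply' _ _ _ hi]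
      exact isHomogeneous_zero _ _ _)
  rwa [one_mul] at h4

omit [IsAlgClosed k] [Infinite k] [Fintype ν] in
theorem hom_Gc (hG : G.IsHomogeneous d) (c : k) : (Gc d G c).IsHomogeneous d := by
  unfold Gc
  refine (IsHomogeneous.rename_isHomogeneous hG).add ?_
  have h1 := (isHomogeneous_C (ν ⊕ Unit) c).mul ((isHomogeneous_X k (Sum.inr () : ν ⊕ Unit)).pow d)
  rwa [zero_add, one_mul] at h1

/-- the cone over `X⁻` -/
theorem cone_case (hCo : T_CONEh) (hWD : T_WD) (hLin : T_LIN) (hC : T_CYC2) (hF : F.IsHomogeneous d)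
    (hθ : Function.Injective θ) (hfl : LinearIndependent k fun j : Fin (s + 2) => fl j)
    (hflm : ∀ i ≤ s, (∀ j, fl (i + 1) (θ j) = flm i j) ∧ ∀ j ∉ Set.range θ, fl (i + 1) j = 0)
    (hfl0 : ∀ j, fl 0 (θ j) = 0)
    (hcone : ∀ (A : Type) [CommRing A] [Algebra k A] (P : ι → A) (α : A),
      (∀ j ∉ Set.range θ, P j = 0) →
        aeval (fun i => α * algebraMap k A (fl 0 i) + P i) F = aeval (fun j => P (θ j)) Fm)
    (hRm : RR k Fm s flm) (K : Type) [Field K] [Algebra k K] (n : ℕ) (hn : n ≤ s) (L : Type)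
    [Field L] [Algebra K L] (α : ι → L) (htr : Algebra.trdeg K L = n) (hα : α ≠ 0)
    (hα0 : ∀ j ∉ Set.range θ, α j = 0) (hFα : aeval α (map (algebraMap k K) F) = 0) :
    cyc K (gen (fun i => algebraMap K L (algebraMap k K (fl 0 i))) α) ∈
      Sat K (n + 1) (map (algebraMap k K) F) (lin K (fun i j => algebraMap k K (fl i j)) (n + 1)) := by
  have hK : Infinite K := Infinite.of_injective _ (algebraMap k K).injective
  have hp : fl 0 ≠ 0 := by
    have := hfl.ne_zero (0 : Fin (s + 2))
    simpa using this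
  have hp1 : (fun i => algebraMap k K (fl 0 i)) ≠ 0 := by
    obtain ⟨i, hi⟩ := Function.ne_iff.1 hp
    intro h0
    apply hi
    have := congrFun h0 i
    simpa using this
  obtain ⟨Φ, hΦ⟩ := hWD K K ι ιm (fun i => algebraMap k K (fl 0 i)) (emb K θ) hp1
  have hgood := good_cone (K := K) hF hθ hp hfl0 hcone
  have hα' : (fun j => α (θ j)) ≠ 0 := by
    obtain ⟨i, hi⟩ := Function.ne_iff.1 hα
    intro h0
    by_cases hir : i ∈ Set.range θ
    · obtain ⟨j, rfl⟩ := hir
      exact hi (congrFun h0 j)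
    · exact hi (hα0 i hir)
  letI : Algebra k L := ((algebraMap K L).comp (algebraMap k K)).toAlgebra
  haveI : IsScalarTower k K L := IsScalarTower.of_algebraMap_eq fun _ => rfl
  have hFα' : aeval (fun j => α (θ j)) (map (algebraMap k K) Fm) = 0 := by
    rw [aeval_map_algebraMap] at hFα ⊢
    rw [← hcone L α 0 hα0]
    have h0 : (fun i => (0 : L) * algebraMap k L (fl 0 i) + α i) = α := by
      funext i
      rw [zero_mul, zero_add]
    rw [h0]
    exact hFα
  obtain ⟨N, hN, m, hrat⟩ := hRm K n hn L (fun j => α (θ j)) htr hα' hFα'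
  have h1 := hCo K ι ιm n _ _ d ((hom_cone hF hθ hcone).map _) _ _ hp1 hgood Φ hΦ _ hrat
  rw [map_sub, map_nsmul, map_zsmul, hΦ L _ hα'] at h1
  have h2 : lm (emb K θ) (fun j => α (θ j)) = α := by
    funext i
    rw [lm_emb]
    by_cases hir : i ∈ Set.range θ
    · obtain ⟨j, rfl⟩ := hir
      rw [emb_apply hθ]
    · rw [emb_out _ hir, hα0 i hir]
  have hfl1 : LinearIndependent K (fun j : Fin (n + 2) => (fun i => algebraMap k K (fl j i))) := by
    have h3 : LinearIndependent k (fun j : Fin (n + 2) => fl j) :=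
      hfl.comp (Fin.castLE (by omega)) (Fin.castLE_injective _)
    exact li_ext h3
  have hflm1 : LinearIndependent K (fun j : Fin (n + 1) => (fun i => algebraMap k K (flm j i))) := by
    have h3 : LinearIndependent k (fun j : Fin (n + 1) => fl (j + 1)) :=
      hfl.comp (fun j : Fin (n + 1) => (⟨j + 1, by omega⟩ : Fin (s + 2)))
        (fun a b hab => by
          have := Fin.mk.inj_iff.1 hab
          exact Fin.ext (by omega))
    let g : (ιm → k) →ₗ[k] (ι → k) :=
      { toFun := fun w i => ∑ j, w j * emb k θ j i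
        map_add' := fun w w' => by
          funext i
          simp only [Pi.add_apply, add_mul, Finset.sum_add_distrib]
        map_smul' := fun c w => by
          funext i
          simp only [Pi.smul_apply, smul_eq_mul, mul_assoc, Finset.mul_sum, RingHom.id_apply] }
    have h4 : LinearIndependent k (fun j : Fin (n + 1) => flm j) := by
      refine LinearIndependent.of_comp g ?_
      convert h3 using 1
      funext j i
      have hj : (j : ℕ) ≤ s := by omega
      change ∑ m, flm j m * emb k θ m i = _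
      by_cases hir : i ∈ Set.range θ
      · obtain ⟨m, rfl⟩ := hir
        rw [emb_apply hθ, (hflm j hj).1 m]
      · rw [emb_out _ hir, (hflm j hj).2 i hir]
    exact li_ext h4
  have h3 : Φ (lin K (fun i j => algebraMap k K (flm i j)) n) =
      lin K (fun i j => algebraMap k K (fl i j)) (n + 1) := by
    refine cone_lin hC hLin n hfl1 hflm1 (emb K θ) ?_ Φ hΦ
    intro i hi b
    by_cases hir : b ∈ Set.range θ
    · obtain ⟨j, rfl⟩ := hir
      rw [emb_apply hθ (fun j => algebraMap k K (flm i j)), (hflm i (by omega)).1 j]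
    · rw [emb_out _ hir, (hflm i (by omega)).2 b hir, map_zero]
  rw [h2, h3] at h1
  exact ⟨N, hN, m, h1⟩

/-- the sum of multiples of `fl 1, …, fl q` -/
theorem sum_flag {q : ℕ} (hq : q ≤ s) {A : Type} [CommRing A] [Algebra k A] (ζ : Fin q → A)
    (hvan : ∀ (A : Type) [CommRing A] [Algebra k A] (a : ℕ → A),
      aeval (fun i => ∑ j ∈ Finset.range (s + 2), a j * algebraMap k A (fl j i)) F = 0) :
    aeval (fun i => ∑ j : Fin q, ζ j * algebraMap k A (fl (j + 1) i)) F = 0 := by
  have h1 := hvan A (fun n => Nat.casesOn n 0 fun n => if h : n < q then ζ ⟨n, h⟩ else 0)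
  rw [← h1]
  congr 2
  funext i
  rw [Finset.sum_range_succ']
  simp only [zero_mul, add_zero]
  have h2 : Finset.range q ⊆ Finset.range (s + 1) := Finset.range_subset_range.2 (by omega)
  have h3 := Finset.sum_subset (f := fun n => (if h : n < q then ζ ⟨n, h⟩ else 0) *
    algebraMap k A (fl (n + 1) i)) h2 (by
      intro n _ hn
      rw [dif_neg (by simpa using hn), zero_mul])
  have h4 : ∑ j : Fin q, ζ j * algebraMap k A (fl (j + 1) i) =
      ∑ n ∈ Finset.range q, (if h : n < q then ζ ⟨n, h⟩ else 0) * algebraMap k A (fl (n + 1) i) := by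
    rw [Finset.sum_range]
    refine Finset.sum_congr rfl fun j _ => ?_
    rw [dif_pos j.2]
  rw [h4, h3]
  change _ = _ + 0 * _
  rw [zero_mul, add_zero]

/-- the image of the linear subspace of `Y` -/
theorem base_case (hCo : T_CONEh) (hWD : T_WD) (hLin : T_LIN) (hC : T_CYC2) (hd : 0 < d)
    (hF : F.IsHomogeneous d) (hf : f.IsHomogeneous d) (hJ : IsJoin e F f G)
    (hθ : Function.Injective θ) (hfl : LinearIndependent k fun j : Fin (s + 2) => fl j)
    (hflY : ∀ i ≤ s, fl i = jv e 0 (flY i))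
    (hflm : ∀ i ≤ s, (∀ j, fl (i + 1) (θ j) = flm i j) ∧ ∀ j ∉ Set.range θ, fl (i + 1) j = 0)
    (hfl0 : ∀ j, fl 0 (θ j) = 0) (hθY : ∀ j ∉ Set.range θ, ∃ b, e j = Sum.inr b)
    (hcone : ∀ (A : Type) [CommRing A] [Algebra k A] (P : ι → A) (α : A),
      (∀ j ∉ Set.range θ, P j = 0) →
        aeval (fun i => α * algebraMap k A (fl 0 i) + P i) F = aeval (fun j => P (θ j)) Fm)
    (hvan : ∀ (A : Type) [CommRing A] [Algebra k A] (a : ℕ → A),
      aeval (fun i => ∑ j ∈ Finset.range (s + 2), a j * algebraMap k A (fl j i)) F = 0)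
    (hRm : RR k Fm s flm) (K : Type) [Field K] [Algebra k K] (q δ : ℕ) (hq : q + δ ≤ s)
    (K1 : Type) [Field K1] [Algebra K K1] [Algebra k K1] [IsScalarTower k K K1]
    (hfg : IsFG δ K K1) (z x : κ → K1) (hz : z ≠ 0)
    (hfz : aeval z f = 0) (φ : ν ⊕ Unit → ι → K1)
    (hφ : ∀ (M : Type) [Field M] [Algebra K1 M] (y : ν → M) (v : M),
      lm φ (Sum.elim y fun _ => v) = jv e (fun i => v * algebraMap K1 M (x i)) y)
    (Φ : (Set (MvPolynomial (ν ⊕ Unit) K1) →₀ ℤ) →+ (Set (MvPolynomial ι K) →₀ ℤ))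
    (hΦ : IsFamMap (K0 := K) (jv e z 0) φ Φ) :
    Φ (lin K1 (fun i j => algebraMap k K1 (Sum.elim (flY i) 0 j)) q) ∈
      Sat K (q + δ + 1) (map (algebraMap k K) F)
        (lin K (fun i j => algebraMap k K (fl i j)) (q + δ + 1)) := by
  have hK : Infinite K := Infinite.of_injective _ (algebraMap k K).injective
  have hK1 : Infinite K1 := Infinite.of_injective _ (algebraMap k K1).injective
  obtain ⟨L, _, _, ζ, hζ⟩ := exists_isGen K1 q
  letI : Algebra K L := ((algebraMap K1 L).comp (algebraMap K K1)).toAlgebra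
  haveI : IsScalarTower K K1 L := IsScalarTower.of_algebraMap_eq fun _ => rfl
  letI : Algebra k L := ((algebraMap K L).comp (algebraMap k K)).toAlgebra
  haveI : IsScalarTower k K L := IsScalarTower.of_algebraMap_eq fun _ => rfl
  haveI : IsScalarTower k K1 L := IsScalarTower.of_algebraMap_eq fun x => by
    change algebraMap K1 L (algebraMap K K1 (algebraMap k K x)) = _
    rw [← IsScalarTower.algebraMap_apply k K K1]
  -- linear independence
  have hLI : LinearIndependent K1 (fun j : Fin (q + 1) =>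
      (fun i => algebraMap k K1 (Sum.elim (flY j) 0 i) : ν ⊕ Unit → K1)) := by
    have h3 : LinearIndependent k (fun j : Fin (q + 1) => fl j) :=
      hfl.comp (Fin.castLE (by omega)) (Fin.castLE_injective _)
    let g : (ν ⊕ Unit → k) →ₗ[k] (ι → k) :=
      { toFun := fun w => jv e 0 (fun b => w (Sum.inl b))
        map_add' := fun w w' => by
          funext i
          unfold jv
          rw [Pi.add_apply]
          cases e i <;> simp
        map_smul' := fun c w => by
          funext i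
          unfold jv
          rw [Pi.smul_apply]
          cases e i <;> simp }
    have h4 : LinearIndependent k (fun j : Fin (q + 1) => (Sum.elim (flY j) 0 : ν ⊕ Unit → k)) := by
      refine LinearIndependent.of_comp g ?_
      convert h3 using 1
      funext j
      have hj : (j : ℕ) ≤ s := by omega
      rw [hflY j hj]
      rfl
    exact li_ext h4
  rw [← hLin K1 (ν ⊕ Unit) L q ζ _ hζ.1 hζ.2 hLI]
  rw [hΦ L _ (gp_ne_zero (fl := fun n i => algebraMap k K1 (Sum.elim (flY n) 0 i)) hLI ζ)]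
  -- the vector
  have h5 : lm φ (fun i : ν ⊕ Unit => algebraMap K1 L (algebraMap k K1 (Sum.elim (flY 0) 0 i)) +
      ∑ j : Fin q, ζ j * algebraMap K1 L (algebraMap k K1 (Sum.elim (flY (j + 1)) 0 i))) =
      fun i => algebraMap K1 L (algebraMap k K1 (fl 0 i)) +
        ∑ j : Fin q, ζ j * algebraMap K1 L (algebraMap k K1 (fl (j + 1) i)) := by
    have h6 := hφ L (fun b => algebraMap K1 L (algebraMap k K1 (flY 0 b)) +
      ∑ j : Fin q, ζ j * algebraMap K1 L (algebraMap k K1 (flY (j + 1) b))) 0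
    have h7 : (fun i : ν ⊕ Unit => algebraMap K1 L (algebraMap k K1 (Sum.elim (flY 0) 0 i)) +
        ∑ j : Fin q, ζ j * algebraMap K1 L (algebraMap k K1 (Sum.elim (flY (j + 1)) 0 i))) =
        Sum.elim (fun b => algebraMap K1 L (algebraMap k K1 (flY 0 b)) +
          ∑ j : Fin q, ζ j * algebraMap K1 L (algebraMap k K1 (flY (j + 1) b))) fun _ => 0 := by
      funext i
      cases i <;> simp
    rw [h7, h6]
    funext i
    have h8 : ∀ j : Fin q, fl (j + 1) i = jv e 0 (flY (j + 1)) i := fun j => by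
      rw [hflY (j + 1) (by omega)]
    simp only [h8]
    rw [hflY 0 (Nat.zero_le _)]
    unfold jv
    cases e i <;> simp
  rw [h5, gen_swap hC hζ (jv e z 0) (fun i => algebraMap k K1 (fl 0 i))
    (fun j i => algebraMap k K1 (fl (j + 1) i))]
  -- the point of the cone
  obtain ⟨α, hα⟩ : ∃ α : ι → L, α = fun i => algebraMap K1 L (jv e z 0 i) +
    ∑ j : Fin q, ζ j * algebraMap K1 L (algebraMap k K1 (fl (j + 1) i)) := ⟨_, rfl⟩
  rw [← hα]
  have hα1 : α = jv e (fun a => algebraMap K1 L (z a))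
      (fun b => ∑ j : Fin q, ζ j * algebraMap k L (flY (j + 1) b)) := by
    rw [hα]
    funext i
    have h8 : ∀ j : Fin q, fl (j + 1) i = jv e 0 (flY (j + 1)) i := fun j => by
      rw [hflY (j + 1) (by omega)]
    simp only [h8]
    unfold jv
    cases e i <;> simp [← IsScalarTower.algebraMap_apply k K1 L]
  have hα0 : α ≠ 0 := by
    obtain ⟨a, ha⟩ := Function.ne_iff.1 hz
    intro h0
    apply ha
    have h9 := congrFun h0 (e.symm (Sum.inl a))
    rw [hα1] at h9
    simpa [jv] using h9
  have hout : ∀ j ∉ Set.range θ, α j = 0 := by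
    intro i hi
    obtain ⟨b, hb⟩ := hθY i hi
    rw [hα]
    have h8 : ∀ j : Fin q, fl (j + 1) i = 0 := fun j => (hflm j (by omega)).2 i hi
    simp only [h8]
    simp [jv, hb]
  have hzero : ∀ (y : ν → L), aeval (jv e 0 y) F = aeval y G := by
    intro y
    rw [hJ L 0 y]
    have h10 : aeval (0 : κ → L) f = 0 := by
      have h11 := hom_mul hf (0 : L) (0 : κ → L)
      have h12 : (fun i => (0 : L) * (0 : κ → L) i) = 0 := by
        funext i
        simp
      rw [h12, zero_pow hd.ne', zero_mul] at h11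
      exact h11
    rw [h10, zero_add]
  have hFα : aeval α (map (algebraMap k K) F) = 0 := by
    rw [aeval_map_algebraMap, hα1, hJ]
    have h10 : aeval (fun a => algebraMap K1 L (z a)) f = 0 := by
      have : aeval (fun a => algebraMap K1 L (z a)) f = algebraMap K1 L (aeval z f) :=
        MvPolynomial.aeval_algebraMap_apply L z f
      rw [this, hfz, map_zero]
    rw [h10, zero_add, ← hzero]
    rw [← sum_flag (F := F) (fl := fl) (show q ≤ s by omega) ζ hvan]
    congr 2
    funext i
    have h8 : ∀ j : Fin q, fl (j + 1) i = jv e 0 (flY (j + 1)) i := fun j => by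
      rw [hflY (j + 1) (by omega)]
    simp only [h8]
    unfold jv
    cases e i <;> simp
  have htr : Algebra.trdeg K L = (q + δ : ℕ) := by
    rw [← trdeg_add_eq K K1, hζ.trdeg, hfg.2]
    push_cast
    exact add_comm _ _
  have h11 := cone_case hCo hWD hLin hC hF hθ hfl hflm hfl0 hcone hRm K (q + δ) hq L α htr hα0 hout hFα
  convert h11 using 3
  funext i
  simp only [cst]
  rw [← IsScalarTower.algebraMap_apply k K1 L, ← IsScalarTower.algebraMap_apply k K L]

end

theorem t_SAih (hU : T_Uh) (hCo : T_CONEh) (hWD : T_WD) (hLin : T_LIN) (hC : T_CYC2) (hSV : T_SV)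
    (hGood : T_GOOD) : T_SA := by
  intro k _ _ _ ι κ ν ιm _ _ _ _ d hd e F f G hF hf hG hJ s fl flY flm θ Fm hθ hfl hflY hflm hfl0
    hθY hcone hvan hRG hRm K _ _ l δ hl
  classical
  induction δ using Nat.strong_induction_on with
  | _ δ ih =>
  intro hδ C hCT
  obtain ⟨κ', _, _, _, _, K1, z, x, c, v, y, htr, hfg, hz, hx, hli, hc, hline, hyv, heq, rfl⟩ := hCT
  have hK : Infinite K := Infinite.of_injective _ (algebraMap k K).injective
  haveI : IsScalarTower k K1 κ' := IsScalarTower.of_algebraMap_eq fun r => by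
    rw [IsScalarTower.algebraMap_apply k K κ', IsScalarTower.algebraMap_apply k K K1]
    rfl
  obtain ⟨q, rfl, hqt⟩ := trdeg_split (K1 := K1) htr hfg.2
  obtain ⟨z1, hz1⟩ : ∃ z1 : κ → K1, ∀ i, algebraMap K1 κ' (z1 i) = z i := ⟨fun i => ⟨z i, hz i⟩, fun _ => rfl⟩
  obtain ⟨x1, hx1⟩ : ∃ x1 : κ → K1, ∀ i, algebraMap K1 κ' (x1 i) = x i := ⟨fun i => ⟨x i, hx i⟩, fun _ => rfl⟩
  have hli1 : LinearIndependent K1 ![z1, x1] := by
    apply li_descend (κ' := κ')
    simp only [hz1, hx1]
    exact hli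
  have hline1 := line_descend (κ' := κ') f c d z1 x1 (by
    intro A _ _ _ _ α β
    simp only [hz1, hx1]
    exact hline A α β)
  have hz10 : z1 ≠ 0 := by
    have := hli1.ne_zero 0
    simpa using this
  have hz0 : jv e z1 0 ≠ 0 := by
    obtain ⟨a, ha⟩ := Function.ne_iff.1 hz10
    intro h0
    apply ha
    have h9 := congrFun h0 (e.symm (Sum.inl a))
    simpa [jv] using h9
  have hgd := hGood k ι κ ν d hd e F f G hF hf hG hJ K K1 z1 x1 c hli1 hc hline1
  obtain ⟨Φ, hΦ⟩ := hWD K K1 ι (ν ⊕ Unit) (jv e z1 0) (phi e x1) hz0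
  -- the point of Y
  have he0 : (Sum.elim y fun _ => v : ν ⊕ Unit → κ') ≠ 0 := by
    intro h0
    rcases hyv with h1 | h1
    · apply h1
      funext b
      exact congrFun h0 (Sum.inl b)
    · apply h1
      exact congrFun h0 (Sum.inr ())
  have heq' : aeval (Sum.elim y fun _ => v : ν ⊕ Unit → κ') (map (algebraMap k K1) (Gc d G c)) = 0 := by
    rw [aeval_map_algebraMap]
    unfold Gc
    rw [map_add, map_mul, map_pow, aeval_rename, aeval_X, aeval_C]
    exact heq
  obtain ⟨N, hN, m, hrat⟩ := hRG c hc K1 q (by omega) κ' (Sum.elim y fun _ => v) hqt he0 heq'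
  have h1 := hU K K1 ι (ν ⊕ Unit) δ q hfg _ _ d ((hom_Gc hG c).map _) _ _ hz0 hgd.1 Φ hΦ _ hrat
  have h2 : Φ (N • cyc K1 (Sum.elim y fun _ => v : ν ⊕ Unit → κ') -
      m • lin K1 (fun i j => algebraMap k K1 (Sum.elim (flY i) 0 j)) q) ∈
      Sat K (q + δ + 1) (map (algebraMap k K) F)
        (lin K (fun i j => algebraMap k K (fl i j)) (q + δ + 1)) := by
    refine (sup_le (fun D hD => Sat.of_rat hD) ((AddSubgroup.closure_le _).2 fun D hD => ?_)) h1
    obtain ⟨N', δ', hN', hδ', hTY⟩ := hSV k ι κ ν d hd e F f G hF hf hG hJ K (q + δ) δ K1 hfg z1 x1 c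
      hli1 hc hline1 D hD
    exact Sat.of_nsmul hN' (ih δ' hδ' (by omega) _ hTY)
  have h3 := base_case hCo hWD hLin hC hd hF hf hJ hθ hfl hflY hflm hfl0 hθY hcone hvan hRm K q δ
    (by omega) K1 hfg z1 x1 hz10 (by
      have := hline1 K1 1 0
      simpa [zero_pow hd.ne'] using this) (phi e x1) hgd.2 Φ hΦ
  have h4 : Φ (cyc K1 (Sum.elim y fun _ => v : ν ⊕ Unit → κ')) =
      cyc K (gen (jv e z 0) (jv e (fun i => v * x i) y)) := by
    rw [hΦ κ' _ he0, hgd.2 κ' y v]
    simp only [hx1]
    congr 2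
    funext i
    simp only [cst, jv]
    cases e i with
    | inl a => simp [hz1]
    | inr b => simp
  rw [map_sub, map_nsmul, map_zsmul, h4] at h2
  have h5 := add_mem h2 (zsmul_mem h3 m)
  rw [sub_add_cancel] at h5
  exact Sat.of_nsmul hN h5

end Pool.Agent.Z15P.Z15.J
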