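import Pool.Agent.Z15P.Z15.J.SA
import Pool.Agent.Z15P.Z15.J.Div2
import Pool.Agent.Z15P.T2h99.J.Abh
import Pool.Agent.Z15P.T2h99.J.Cyc2
import Pool.Agent.Z15P.T2h99.J.Fin
import Pool.Agent.Z15P.T2h99.J.Lin
import Pool.Agent.Z15P.T2h99.J.Tr
import Pool.Agent.Z15P.T2h99.J.Wd
import Pool.Agent.Z15P.T2h62.J15.GOOD
import Pool.Agent.Z15P.T2h62.J15.LIM2
import Pool.Agent.Z15P.T2h62.J15.SBi
import Pool.Agent.Z15P.T2h62.J15.SLi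
import Pool.Agent.Z15P.T2h62.J15.SVi

/-!
Assembly.
-/

set_option autoImplicit false

open FF FF.PP MvPolynomial Pool.Agent.Z15P.Z15.H Pool.Agent.Z15P.Z15.J.Stm Pool.Agent.Z15P.T2h99.J Pool.Agent.Z15P.T2h62.J15

namespace Pool.Agent.Z15P.Z15.J

theorem a_R : T_R := t_R t_FIN t_CYC2 t_ABH t_J_LIM2

theorem a_SB : T_SB := t_J_SBi a_R t_CYC2 t_J_LIM2

theorem a_SL : T_SL := t_J_SLi t_CYC2

theorem a_U : T_Uh :=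
  t_Uih (t_TRih (t_G t_CYC2 t_ABH) (t_GFIN t_FIN t_CYC2 t_ABH) t_CYC2 t_J_LIM2)

theorem a_SA : T_SA :=
  t_SAih a_U (t_CONEih a_U) t_WD t_LIN t_CYC2 (t_J_SVi t_ABH t_CYC2 t_J_LIM2) t_J_GOOD

end Pool.Agent.Z15P.Z15.J
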