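import Pool.Agent.Z15P.Z15.J.Gauss

/-!
Divisors of functions on projective line bundles, general dimension.
-/

set_option autoImplicit false
set_option linter.all false

open FF FF.PP MvPolynomial Pool.Agent.Z15P.Z15.H Pool.Agent.Z15P.Z15.J.Stm

namespace Pool.Agent.Z15P.Z15.J

/-- a purely transcendental extension -/
theorem exists_ruled (K E : Type) [Field K] [Field E] [Algebra K E] :
    ∃ (M : Type) (_ : Field M) (_ : Algebra K M) (_ : Algebra E M) (_ : IsScalarTower K E M) (σ : M),
      Transcendental E σ ∧ IntermediateField.adjoin E {σ} = ⊤ := by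
  exact ⟨RatFunc E, inferInstance, inferInstance, inferInstance, inferInstance, RatFunc.X,
    RatFunc.transcendental_X, RatFunc.adjoin_X⟩

section

variable {K : Type} [Field K] [Infinite K] {ι E M : Type} [Fintype ι] [Field E]
  [Algebra K E] [Field M] [Algebra K M] [Algebra E M] [IsScalarTower K E M]

theorem isFG_ruled {n : ℕ} (hn : IsFG n K E) {σ : M} (hσ : Transcendental E σ)
    (hadj : IntermediateField.adjoin E {σ} = ⊤) : IsFG (n + 1) K M := by
  have hM := isFF_simple hσ hadj
  have h1 := hn.1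
  have h2 := hM.ess
  refine ⟨Algebra.EssFiniteType.comp K E M, ?_⟩
  rw [← trdeg_add_eq K E, hn.2, hM.trdeg]
  push_cast
  rfl

theorem cyc_red' (hC : T_CYC2) {v : Place K M} {Q : ι → M} {R R' : ι → v.RF} (h : IsRed v Q R)
    (h' : IsRed v Q R') : cyc K R = cyc K R' := by
  obtain ⟨x, hx, rfl⟩ := h.unique h'
  exact ((hC K ι v.RF).1 R x hx).symm

/-- points which are algebraic over a subfield -/
theorem isAlgebraic_of_cyc (hC : T_CYC2) {k1 k2 : Type} [Field k1] [Field k2] [Algebra K k1]
    [Algebra K k2] [Algebra k1 k2] [IsScalarTower K k1 k2] (R : ι → k2)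
    (hR : ∀ i, IsAlgebraic k1 (R i)) (h : cyc K R ≠ 0) : Algebra.IsAlgebraic k1 k2 := by
  have h1 := ((hC K ι k2).2.2.2.1 R h).2
  have h2 : ∀ x ∈ ratioField K R, IsAlgebraic k1 x := by
    intro x hx
    have h3 : ratioField K R ≤ (algebraicClosure k1 k2).restrictScalars K := by
      unfold ratioField
      rw [IntermediateField.adjoin_le_iff]
      rintro z ⟨i, j, rfl⟩
      refine mem_algebraicClosure_iff.2 ?_
      rw [div_eq_mul_inv]
      exact (hR i).mul (hR j).inv
    exact mem_algebraicClosure_iff.1 (h3 hx)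
  have h4 : Algebra.IsAlgebraic (algebraicClosure k1 k2) k2 := by
    constructor
    intro x
    obtain ⟨p, hp, hp'⟩ := h1.isAlgebraic x
    have hmem : ∀ y : ratioField K R, (y : k2) ∈ algebraicClosure k1 k2 := fun y =>
      mem_algebraicClosure_iff.2 (h2 y.1 y.2)
    let φ : ratioField K R →+* algebraicClosure k1 k2 :=
      { toFun := fun y => ⟨y, hmem y⟩
        map_one' := rfl
        map_zero' := rfl
        map_mul' := fun _ _ => rfl
        map_add' := fun _ _ => rfl }
    refine ⟨p.map φ, ?_, ?_⟩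
    · rwa [Ne, Polynomial.map_eq_zero_iff φ.injective]
    · rw [Polynomial.aeval_def, Polynomial.eval₂_map]
      exact hp'
  exact Algebra.IsAlgebraic.trans k1 (algebraicClosure k1 k2) k2

/-- the place of the projective line bundle given by the limit at `t` -/
theorem main_place' (hC : T_CYC2) (hAb : T_ABH) {n : ℕ} (hn : Algebra.trdeg K E = n) {σ : M}
    (hσ : Transcendental E σ) (hadj : IntermediateField.adjoin E {σ} = ⊤) (A B : ι → E)
    {t : Place K E} {a b : ι → t.RF} (hab : LinearIndependent t.RF ![a, b]) {p q r s : E}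
    (h : p * s - q * r ≠ 0)
    (hA : ∀ i, t.Reg (p * A i + q * B i) ∧ t.red (p * A i + q * B i) = a i)
    (hB : ∀ i, t.Reg (r * A i + s * B i) ∧ t.red (r * A i + s * B i) = b i) :
    ∃ v : Place K M, Over v t 1 ∧ Algebra.trdeg K v.RF = Algebra.trdeg K t.RF + 1 ∧
      (∀ R : ι → v.RF, IsRed v (fun i => algebraMap E M (A i) + σ * algebraMap E M (B i)) R →
        cyc K R = cyc K (gen a b)) ∧
      ∀ (w : Place K M) (e : ℕ) (R : ι → w.RF), Over w t e → Algebra.trdeg K w.RF = n →
        IsRed w (fun i => algebraMap E M (A i) + σ * algebraMap E M (B i)) R → cyc K R ≠ 0 →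
        w = v := by
  obtain ⟨h1, h2, h3, h4⟩ := moebius hσ hadj h
  obtain ⟨τ, hτ⟩ : ∃ τ, τ = (algebraMap E M p * σ - algebraMap E M q) /
      (algebraMap E M s - algebraMap E M r * σ) := ⟨_, rfl⟩
  rw [← hτ] at h3 h4
  have hτ0 : τ ≠ 0 := by
    intro h0
    apply h3
    rw [h0]
    exact isAlgebraic_zero
  have h5 : algebraMap E M (p * s - q * r) ≠ 0 := (_root_.map_ne_zero (algebraMap E M)).2 h
  have h3' : τ * (algebraMap E M s - algebraMap E M r * σ) =
      algebraMap E M p * σ - algebraMap E M q := by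
    rw [hτ, div_mul_cancel₀ _ h1]
  have key : ∀ i, algebraMap E M (p * s - q * r) / (algebraMap E M s - algebraMap E M r * σ) *
      (algebraMap E M (A i) + σ * algebraMap E M (B i)) =
      algebraMap E M (p * A i + q * B i) + τ * algebraMap E M (r * A i + s * B i) := by
    intro i
    rw [div_mul_eq_mul_div, div_eq_iff h1]
    simp only [map_sub, map_add, map_mul]
    linear_combination -(algebraMap E M r * algebraMap E M (A i) +
      algebraMap E M s * algebraMap E M (B i)) * h3'
  have keyi : ∀ i, (algebraMap E M (p * s - q * r) / (algebraMap E M s - algebraMap E M r * σ) / τ) *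
      (algebraMap E M (A i) + σ * algebraMap E M (B i)) =
      τ⁻¹ * algebraMap E M (p * A i + q * B i) + algebraMap E M (r * A i + s * B i) := by
    intro i
    have := key i
    rw [div_mul_eq_mul_div, this, div_eq_iff hτ0]
    field_simp
  -- nondegeneracy
  have hnd : ∀ (L : Type) [Field L] (ρ : t.RF →+* L) (x : L),
      (fun i => ρ (a i) + x * ρ (b i)) ≠ 0 := by
    intro L _ ρ x h0
    rw [LinearIndependent.pair_iff] at hab
    have h6 : ∀ i, ρ (a i) + x * ρ (b i) = 0 := fun i => congrFun h0 i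
    obtain ⟨j, hj⟩ : ∃ j, b j ≠ 0 := by
      by_contra hcon
      push Not at hcon
      have := hab 0 1 (by funext i; simp [hcon i])
      exact one_ne_zero this.2
    have hbj : ρ (b j) ≠ 0 := (_root_.map_ne_zero ρ).2 hj
    have hx : x = ρ (-(a j) / b j) := by
      rw [map_div₀, map_neg, eq_div_iff hbj]
      linear_combination h6 j
    have := hab 1 (-(a j) / b j) (by
      funext i
      have h7 := h6 i
      rw [hx, ← map_mul, ← map_add] at h7
      have h8 : a i + -(a j) / b j * b i = 0 := (map_eq_zero ρ).1 h7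
      simpa using h8)
    exact one_ne_zero this.1
  have hval : ∀ (w : Place K M) (e : ℕ) (hw : Over w t e) (i : ι),
      (w.Reg (algebraMap E M (p * A i + q * B i)) ∧
        w.red (algebraMap E M (p * A i + q * B i)) = hw.resMap (a i)) ∧
      (w.Reg (algebraMap E M (r * A i + s * B i)) ∧
        w.red (algebraMap E M (r * A i + s * B i)) = hw.resMap (b i)) := by
    intro w e hw i
    refine ⟨⟨hw.reg.2 (hA i).1, ?_⟩, ⟨hw.reg.2 (hB i).1, ?_⟩⟩
    · rw [← hw.resMap_red (hA i).1, (hA i).2]
    · rw [← hw.resMap_red (hB i).1, (hB i).2]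
  -- reductions
  have hred : ∀ (w : Place K M) (e : ℕ) (hw : Over w t e), w.Reg τ →
      IsRed w (fun i => algebraMap E M (A i) + σ * algebraMap E M (B i))
        (fun i => hw.resMap (a i) + w.red τ * hw.resMap (b i)) := by
    intro w e hw hr
    refine ⟨hnd _ (hw.resMap : t.RF →+* w.RF) _, algebraMap E M (p * s - q * r) /
      (algebraMap E M s - algebraMap E M r * σ), div_ne_zero h5 h1, fun i => ?_⟩
    obtain ⟨⟨h6, h7⟩, h8, h9⟩ := hval w e hw i
    rw [key i]
    refine ⟨w.reg_add h6 (w.reg_mul hr h8), ?_⟩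
    rw [w.red_add h6 (w.reg_mul hr h8), w.red_mul hr h8, h7, h9]
  obtain ⟨v, hv, hvr, hvt⟩ := gauss_exists (K := K) t h3 h4
  -- the residue field
  have hres : (letI : Algebra t.RF v.RF := (hv.resMap : t.RF →+* v.RF).toAlgebra
      Transcendental t.RF (v.red τ) ∧ IntermediateField.adjoin t.RF {v.red τ} = ⊤) := by
    letI : Algebra t.RF v.RF := (hv.resMap : t.RF →+* v.RF).toAlgebra
    refine ⟨fun ⟨P, hP, hP'⟩ => hvt P hP hP', ?_⟩
    rw [eq_top_iff]
    rintro y -
    obtain ⟨P, Q, -, hPQ⟩ := gauss_residue hv h4 hvr hvt y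
    exact (IntermediateField.mem_adjoin_simple_iff t.RF y).2 ⟨P, Q, hPQ⟩
  refine ⟨v, hv, ?_, ?_, ?_⟩
  · letI : Algebra t.RF v.RF := (hv.resMap : t.RF →+* v.RF).toAlgebra
    haveI : IsScalarTower K t.RF v.RF := IsScalarTower.of_algebraMap_eq fun x =>
      (hv.resMap.commutes x).symm
    have h6 := isFF_simple hres.1 hres.2
    rw [← trdeg_add_eq K t.RF, h6.trdeg]
  · intro R hR
    rw [cyc_red' hC hR (hred v 1 hv hvr)]
    letI : Algebra t.RF v.RF := (hv.resMap : t.RF →+* v.RF).toAlgebra
    haveI : IsScalarTower K t.RF v.RF := IsScalarTower.of_algebraMap_eq fun x =>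
      (hv.resMap.commutes x).symm
    exact (hC K ι t.RF).2.2.2.2.2.2.2 v.RF (v.red τ) hres.1 hres.2 a b
  · intro w e R hw hwn hR hne
    letI : Algebra t.RF w.RF := (hw.resMap : t.RF →+* w.RF).toAlgebra
    haveI : IsScalarTower K t.RF w.RF := IsScalarTower.of_algebraMap_eq fun x =>
      (hw.resMap.commutes x).symm
    have hno : ¬ Algebra.IsAlgebraic t.RF w.RF := by
      intro halg
      obtain ⟨m, hm, hm'⟩ := hAb K E n hn t
      have h6 := trdeg_add_eq K t.RF (A := w.RF)
      rw [trdeg_eq_zero_iff.2 halg, add_zero, hm', hwn] at h6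
      have h7 : m = n := by exact_mod_cast h6
      omega
    have hconst : ∀ R' : ι → w.RF, IsRed w (fun i => algebraMap E M (A i) + σ * algebraMap E M (B i))
        R' → (∀ i, IsAlgebraic t.RF (R' i)) → False := by
      intro R' hR' halg
      exact hno (isAlgebraic_of_cyc hC R' halg (by rwa [cyc_red' hC hR' hR]))
    by_cases hr : w.Reg τ
    · by_cases htr : Tr hw τ
      · exact gauss_unique hv hw h4 hvr hvt hr htr
      · exfalso
        unfold Tr at htr
        push Not at htr
        obtain ⟨P, hP, hP'⟩ := htr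
        have halg : IsAlgebraic t.RF (w.red τ) := ⟨P, hP, hP'⟩
        exact hconst _ (hred w e hw hr) fun i =>
          (isAlgebraic_algebraMap (a i)).add (halg.mul (isAlgebraic_algebraMap (b i)))
    · exfalso
      have hlt : w.ord τ < 0 := by
        by_contra hcon
        exact hr (Or.inr (not_lt.1 hcon))
      have hir : w.Reg τ⁻¹ := by
        right
        rw [w.ord_inv]
        omega
      have hi0 : w.red τ⁻¹ = 0 := by
        rw [w.red_eq_zero_iff hir]
        right
        rw [w.ord_inv]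
        omega
      refine hconst (fun i => hw.resMap (b i)) ⟨?_, algebraMap E M (p * s - q * r) /
        (algebraMap E M s - algebraMap E M r * σ) / τ, div_ne_zero (div_ne_zero h5 h1) hτ0,
        fun i => ?_⟩ fun i => isAlgebraic_algebraMap (b i)
      · intro h0
        rw [LinearIndependent.pair_iff] at hab
        have h6 : ∀ i, b i = 0 := fun i => by
          have := congrFun h0 i
          exact (map_eq_zero (hw.resMap : t.RF →+* w.RF)).1 this
        have := hab 0 1 (by funext i; simp [h6 i])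
        exact one_ne_zero this.2
      · obtain ⟨⟨h6, h7⟩, h8, h9⟩ := hval w e hw i
        rw [keyi i]
        refine ⟨w.reg_add (w.reg_mul hir h6) h8, ?_⟩
        rw [w.red_add (w.reg_mul hir h6) h8, w.red_mul hir h6, hi0, zero_mul, zero_add, h9]

theorem ruled_ne_zero' {σ : M} (hσ : Transcendental E σ) {A B : ι → E} (hB : B ≠ 0) :
    (fun i => algebraMap E M (A i) + σ * algebraMap E M (B i)) ≠ 0 := by
  intro h
  obtain ⟨j, hj⟩ : ∃ j, B j ≠ 0 := by
    by_contra hcon
    push Not at hcon
    exact hB (funext hcon)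
  have h1 := congrFun h j
  simp only [Pi.zero_apply] at h1
  have h2 : algebraMap E M (B j) ≠ 0 := (_root_.map_ne_zero (algebraMap E M)).2 hj
  have h3 : σ = algebraMap E M (-(A j) / B j) := by
    rw [map_div₀, map_neg, eq_div_iff h2]
    linear_combination h1
  apply hσ
  rw [h3]
  exact isAlgebraic_algebraMap _

theorem over_inj {v : Place K M} {t t' : Place K E} {e e' : ℕ} (h : Over v t e)
    (h' : Over v t' e') : t = t' := by
  apply Place.eq_of_le
  intro f hf h1
  have h2 := h.2 f
  rw [h'.2 f] at h2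
  have h3 : (0 : ℤ) < e := by exact_mod_cast h.1
  have h4 : (0 : ℤ) < e' := by exact_mod_cast h'.1
  by_contra hcon
  push Not at hcon
  have h5 : (e' : ℤ) * t'.ord f < 0 := mul_neg_of_pos_of_neg h4 hcon
  have h6 : 0 ≤ (e : ℤ) * t.ord f := mul_nonneg h3.le h1
  omega

theorem left_ne {L : Type} [Field L] {A B : ι → L} (h : LinearIndependent L ![A, B]) :
    A ≠ 0 ∧ B ≠ 0 := by
  rw [LinearIndependent.pair_iff] at h
  constructor
  · rintro rfl
    exact one_ne_zero (h 1 0 (by simp)).1
  · rintro rfl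
    exact one_ne_zero (h 0 1 (by simp)).2

/-- all Gauss places -/
theorem exists_V (hC : T_CYC2) (hAb : T_ABH) {n : ℕ} (hn : Algebra.trdeg K E = n) {σ : M}
    (hσ : Transcendental E σ) (hadj : IntermediateField.adjoin E {σ} = ⊤) (A B : ι → E)
    (a b : ∀ t : Place K E, ι → t.RF) (hlim : ∀ t, IsLim t A B (a t) (b t)) :
    ∃ V : Place K E → Place K M, (∀ t, Over (V t) t 1) ∧
      (∀ t, Algebra.trdeg K (V t).RF = Algebra.trdeg K t.RF + 1) ∧
      (∀ t, ∀ R : ι → (V t).RF,
        IsRed (V t) (fun i => algebraMap E M (A i) + σ * algebraMap E M (B i)) R →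
        cyc K R = cyc K (gen (a t) (b t))) ∧
      ∀ t, ∀ (w : Place K M) (e : ℕ) (R : ι → w.RF), Over w t e → Algebra.trdeg K w.RF = n →
        IsRed w (fun i => algebraMap E M (A i) + σ * algebraMap E M (B i)) R → cyc K R ≠ 0 →
        w = V t := by
  have hex : ∀ t : Place K E, ∃ v : Place K M, Over v t 1 ∧
      Algebra.trdeg K v.RF = Algebra.trdeg K t.RF + 1 ∧
      (∀ R : ι → v.RF, IsRed v (fun i => algebraMap E M (A i) + σ * algebraMap E M (B i)) R →
        cyc K R = cyc K (gen (a t) (b t))) ∧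
      ∀ (w : Place K M) (e : ℕ) (R : ι → w.RF), Over w t e → Algebra.trdeg K w.RF = n →
        IsRed w (fun i => algebraMap E M (A i) + σ * algebraMap E M (B i)) R → cyc K R ≠ 0 →
        w = v := by
    intro t
    obtain ⟨h1, p, q, r, s, h2, h3, h4⟩ := hlim t
    exact main_place' hC hAb hn hσ hadj A B h1 h2 h3 h4
  choose V h1 h2 h3 h4 using hex
  exact ⟨V, h1, h2, h3, h4⟩

end

theorem t_G (hC : T_CYC2) (hAb : T_ABH) : T_G := by
  intro K _ _ ι E _ _ _ n hn F A B hAB hV h T a b hh hlim hT1 hT2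
  classical
  obtain ⟨M, _, _, _, _, σ, hσ, hadj⟩ := exists_ruled K E
  have hQ := ruled_ne_zero' (M := M) hσ (A := A) (left_ne hAB).2
  obtain ⟨V, hV1, hV2, hV3, hV4⟩ := exists_V hC hAb hn.2 hσ hadj A B a b hlim
  obtain ⟨Q, hQd⟩ : ∃ Q : ι → M, Q = fun i => algebraMap E M (A i) + σ * algebraMap E M (B i) :=
    ⟨_, rfl⟩
  rw [← hQd] at hQ hV3 hV4
  have hR : ∀ v : Place K M, ∃ R, IsRed v Q R := fun v => exists_isRed v hQ
  choose R hR using hR
  have hh' : algebraMap E M h ≠ 0 := (_root_.map_ne_zero (algebraMap E M)).2 hh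
  have hord : ∀ t, (V t).ord (algebraMap E M h) = t.ord h := by
    intro t
    rw [(hV1 t).2 h]
    simp
  let T' := T.filter fun t => t.ord h ≠ 0 ∧ cyc K (gen (a t) (b t)) ≠ 0
  have hsum : ∑ t ∈ T, t.ord h • cyc K (gen (a t) (b t)) =
      ∑ t ∈ T', t.ord h • cyc K (gen (a t) (b t)) := by
    simp only [T']
    rw [Finset.sum_filter]
    refine Finset.sum_congr rfl fun t _ => ?_
    split_ifs with hc
    · rfl
    · by_cases h1 : t.ord h = 0
      · rw [h1, zero_smul]
      · have h2 : cyc K (gen (a t) (b t)) = 0 := by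
          by_contra h3
          exact hc ⟨h1, h3⟩
        rw [h2, smul_zero]
  rw [hsum]
  refine AddSubgroup.subset_closure ⟨M, inferInstance, inferInstance, Q, algebraMap E M h,
    isFG_ruled hn hσ hadj, hQ, ?_, hh', T'.image V, R, hR, ?_, ?_⟩
  · have h1 := hV M 1 σ
    rw [hQd]
    simpa using h1
  · intro v
    constructor
    · intro hv
      obtain ⟨t, ht, rfl⟩ := Finset.mem_image.1 hv
      simp only [T', Finset.mem_filter] at ht
      refine ⟨?_, ?_, ?_⟩
      · rw [hV2, hT1 t ht.1]
      · rw [hord]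
        exact ht.2.1
      · rw [hV3 t _ (hR _)]
        exact ht.2.2
    · rintro ⟨h1, h2, h3⟩
      obtain ⟨e, t, ht⟩ := exists_over (K := E) v ⟨h, h2⟩
      have h4 := hV4 t v e (R v) ht h1 (hR v) h3
      refine Finset.mem_image.2 ⟨t, ?_, h4.symm⟩
      have h5 : t.ord h ≠ 0 := by
        intro h5
        apply h2
        rw [ht.2 h, h5, mul_zero]
      have h6 : cyc K (gen (a t) (b t)) ≠ 0 := by
        subst h4
        rwa [← hV3 t _ (hR _)]
      simp only [T', Finset.mem_filter]
      refine ⟨hT2 t ?_ h5 h6, h5, h6⟩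
      rw [← hV2, ← h4, h1]
  · rw [Finset.sum_image]
    · refine Finset.sum_congr rfl fun t _ => ?_
      rw [hord, hV3 t _ (hR _)]
    · intro t _ t' _ htt
      have h1 := hV1 t
      rw [htt] at h1
      exact over_inj h1 (hV1 t')

theorem t_GFIN (hF : T_FIN) (hC : T_CYC2) (hAb : T_ABH) : T_GFIN := by
  intro K _ _ ι E _ _ _ n hn A B hAB h a b hh hlim
  classical
  obtain ⟨M, _, _, _, _, σ, hσ, hadj⟩ := exists_ruled K E
  have hQ := ruled_ne_zero' (M := M) hσ (A := A) (left_ne hAB).2
  obtain ⟨V, hV1, hV2, hV3, -⟩ := exists_V hC hAb hn.2 hσ hadj A B a b hlim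
  have hR : ∀ v : Place K M, ∃ R, IsRed v _ R := fun v => exists_isRed v hQ
  choose R hR using hR
  have hh' : algebraMap E M h ≠ 0 := (_root_.map_ne_zero (algebraMap E M)).2 hh
  have hfin := hF K ι M n (isFG_ruled hn hσ hadj) _ (algebraMap E M h) R hR hh'
  refine Set.Finite.of_finite_image (f := V) (hfin.subset ?_) ?_
  · rintro v ⟨t, ⟨h1, h2, h3⟩, rfl⟩
    refine ⟨by rw [hV2, h1], ?_, ?_⟩
    · rw [(hV1 t).2 h]
      simpa using h2
    · rwa [hV3 t _ (hR _)]
  · intro t _ t' _ htt
    have h1 := hV1 t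
    rw [htt] at h1
    exact over_inj h1 (hV1 t')

/-- `E → RF` for places which are trivial on `E` -/
noncomputable def trivHom' {k E M : Type} [Field k] [Field E] [Algebra k E] [Field M] [Algebra k M]
    [Algebra E M] [IsScalarTower k E M] (v : Place k M)
    (h : ∀ x : E, x ≠ 0 → v.ord (algebraMap E M x) = 0) : E →ₐ[k] v.RF where
  toFun x := v.red (algebraMap E M x)
  map_one' := by rw [map_one, v.red_one]
  map_zero' := by rw [map_zero, v.red_zero]
  map_mul' x y := by
    have hr : ∀ x : E, v.Reg (algebraMap E M x) := fun x => by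
      by_cases hx : x = 0
      · rw [hx, map_zero]
        exact v.reg_zero
      · exact Or.inr (h x hx).ge
    rw [map_mul, v.red_mul (hr x) (hr y)]
  map_add' x y := by
    have hr : ∀ x : E, v.Reg (algebraMap E M x) := fun x => by
      by_cases hx : x = 0
      · rw [hx, map_zero]
        exact v.reg_zero
      · exact Or.inr (h x hx).ge
    rw [map_add, v.red_add (hr x) (hr y)]
  commutes' c := by
    rw [← IsScalarTower.algebraMap_apply]
    rfl

end Pool.Agent.Z15P.Z15.J
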