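import Pool.Agent.Z15P.Z15.J.Alg

/-!
The induction step: preparations.
-/

set_option autoImplicit false
set_option linter.all false

open FF FF.PP MvPolynomial Pool.Agent.Z15P.Z15.H Pool.Agent.Z15P.Z15.J.Stm

namespace Pool.Agent.Z15P.Z15.J

/-- linear independence over an extension field -/
theorem li_ext {k K ι : Type} [Field k] [Field K] [Algebra k K] [Fintype ι] {n : ℕ}
    {v : Fin n → ι → k} (h : LinearIndependent k v) :
    LinearIndependent K (fun j i => algebraMap k K (v j i)) := by
  classical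
  obtain ⟨g, hg⟩ : ∃ g : (ι → k) →ₗ[k] (Fin n → k), ∀ j, g (v j) = Pi.single j 1 := by
    have h1 : LinearMap.ker (Fintype.linearCombination k v) = ⊥ := by
      rw [LinearMap.ker_eq_bot]
      exact linearIndependent_iff_injective_fintypeLinearCombination.1 h
    obtain ⟨g, hg⟩ := (Fintype.linearCombination k v).exists_leftInverse_of_injective h1
    refine ⟨g, fun j => ?_⟩
    have h2 := congrArg (fun f => f (Pi.single j 1)) hg
    simp only [LinearMap.comp_apply, LinearMap.id_apply] at h2
    rw [← h2]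
    congr 1
    simp [Fintype.linearCombination_apply, Pi.single_apply]
  have hc : ∀ j m : Fin n, ∑ i, v m i * g (Pi.single i 1) j = if m = j then 1 else 0 := by
    intro j m
    have h1 : g (v m) = ∑ i, v m i • g (Pi.single i 1) := by
      conv_lhs => rw [show v m = ∑ i, v m i • (Pi.single i (1 : k) : ι → k) from by
        funext a
        simp [Finset.sum_apply, Pi.single_apply]]
      rw [map_sum]
      simp only [map_smul]
    have h2 := congrFun h1 j
    rw [hg, Finset.sum_apply] at h2
    simp only [Pi.smul_apply, smul_eq_mul] at h2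
    rw [← h2, Pi.single_apply]
    simp only [eq_comm]
  rw [Fintype.linearIndependent_iff]
  intro a ha j
  have h1 : ∑ i, (∑ m, a m * algebraMap k K (v m i)) * algebraMap k K (g (Pi.single i 1) j) = 0 := by
    refine Finset.sum_eq_zero fun i _ => ?_
    have := congrFun ha i
    simp only [Finset.sum_apply, Pi.smul_apply, smul_eq_mul, Pi.zero_apply] at this
    rw [this, zero_mul]
  simp only [Finset.sum_mul] at h1
  rw [Finset.sum_comm] at h1
  have h2 : ∀ m, ∑ i, a m * algebraMap k K (v m i) * algebraMap k K (g (Pi.single i 1) j) =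
      a m * (if m = j then 1 else 0) := by
    intro m
    simp only [mul_assoc, ← map_mul, ← Finset.mul_sum]
    rw [← map_sum, hc]
    split_ifs <;> simp
  simp only [h2] at h1
  simpa using h1

variable {K K1 L ι : Type} [Field K] [Infinite K] [Field K1] [Algebra K K1] [Field L] [Algebra K1 L]
  [Algebra K L] [IsScalarTower K K1 L] [Fintype ι]

/-- the generic point of the join of `Z`, `u0` and the `u j` -/
theorem gen_swap (hC : T_CYC2) {q : ℕ} {ζ : Fin q → L} (h : IsGen K1 ζ) (Z u0 : ι → K1)
    (u : Fin q → ι → K1) :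
    cyc K (gen (cst L Z) (fun i => algebraMap K1 L (u0 i) + ∑ j, ζ j * algebraMap K1 L (u j i))) =
      cyc K (gen (cst L u0) (fun i => algebraMap K1 L (Z i) + ∑ j, ζ j * algebraMap K1 L (u j i))) := by
  obtain ⟨h1, h2⟩ := isGen_ratFunc h
  obtain ⟨ρ, hρ⟩ := h1.equiv h2
  have hX0 : (RatFunc.X : RatFunc L) ≠ 0 := RatFunc.X_ne_zero
  have hρX : ρ (RatFunc.X : RatFunc L)⁻¹ = RatFunc.X := by
    have := hρ 0
    simpa using this
  have hρζ : ∀ j, ρ (algebraMap L (RatFunc L) (ζ j)) = RatFunc.X * algebraMap L (RatFunc L) (ζ j) := by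
    intro j
    have := hρ j.succ
    simpa using this
  let ρ' : RatFunc L →ₐ[K] RatFunc L := (ρ : RatFunc L →ₐ[K1] RatFunc L).restrictScalars K
  have hρ' : Function.Surjective ρ' := ρ.surjective
  have hc : ∀ x : K1, ρ (algebraMap L (RatFunc L) (algebraMap K1 L x)) =
      algebraMap L (RatFunc L) (algebraMap K1 L x) := by
    intro x
    rw [← IsScalarTower.algebraMap_apply K1 L (RatFunc L)]
    exact ρ.commutes x
  rw [← (hC K ι (RatFunc L)).1 (gen (cst L Z) _) (RatFunc.X)⁻¹ (inv_ne_zero hX0)]
  rw [← (hC K ι (RatFunc L)).2.1 (RatFunc L) ρ' hρ']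
  congr 1
  funext i
  change ρ _ = _
  simp only [gen, cst, map_add, map_mul, map_sum]
  have hX1 : ρ (RatFunc.X : RatFunc L) = (RatFunc.X)⁻¹ := by
    rw [map_inv₀] at hρX
    rw [← inv_inj, hρX, inv_inv]
  rw [hρX, hX1]
  simp only [hρζ, hc]
  have h3 : ∑ x, RatFunc.X * algebraMap L (RatFunc L) (ζ x) *
      algebraMap L (RatFunc L) (algebraMap K1 L (u x i)) =
      RatFunc.X * ∑ x, algebraMap L (RatFunc L) (ζ x) *
        algebraMap L (RatFunc L) (algebraMap K1 L (u x i)) := by
    rw [Finset.mul_sum]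
    exact Finset.sum_congr rfl fun _ _ => mul_assoc _ _ _
  rw [h3]
  field_simp
  ring

end Pool.Agent.Z15P.Z15.J
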